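import Pool.Agent.H197Z.RigidExt

set_option autoImplicit false

universe u

namespace Pool.Agent.Results.MP_92f261_al.ARigidLocalSymmetric

open CategoryTheory

/-- `A` is local: `A / J` is a division ring (nonzero, and every nonzero element is a unit), where
`J` is the Jacobson radical. -/
def IsLocalAlg (A : Type u) [Ring A] : Prop :=
  Nontrivial (A ⧸ Ring.jacobson A) ∧ ∀ x : A ⧸ Ring.jacobson A, x ≠ 0 → IsUnit x

/-- `A` is symmetric: `A` is isomorphic to its `k`-dual as an `A`-`A`-bimodule, where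
`(a f b)(y) = f(b y a)`. -/
def IsSymmetricAlg (k A : Type u) [Field k] [Ring A] [Algebra k A] : Prop :=
  ∃ e : A ≃ₗ[k] Module.Dual k A, ∀ a b x y : A, e (a * x * b) y = e x (b * y * a)

/-- Over every field there is a finite dimensional local symmetric (and selfinjective) algebra with
a finitely generated nonprojective right module `M` such that `Ext¹(M, M) = 0`. -/
theorem result (k : Type u) [Field k] :
    ∃ (A : Type u) (_ : Ring A) (_ : Algebra k A), FiniteDimensional k A ∧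
      IsLocalAlg A ∧ IsSymmetricAlg k A ∧ Module.Injective Aᵐᵒᵖ A ∧
      ∃ M : ModuleCat.{u} Aᵐᵒᵖ, Module.Finite Aᵐᵒᵖ M ∧ ¬ Module.Projective Aᵐᵒᵖ M ∧
        Subsingleton (Abelian.Ext.{u} M M 1) := by
  refine ⟨Pool.Agent.H197Z.Rigid.Alg k, inferInstance, inferInstance,
    (Module.Finite.pi : Module.Finite k (Fin 12 → k)), ⟨?_, ?_⟩,
    ⟨Pool.Agent.H197Z.Rigid.formEquiv, Pool.Agent.H197Z.Rigid.formEquiv_bimod⟩,
    Pool.Agent.H197Z.Rigid.injective_of_symm Pool.Agent.H197Z.Rigid.formEquiv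
      Pool.Agent.H197Z.Rigid.formEquiv_bimod,
    ModuleCat.of _ (Pool.Agent.H197Z.Rigid.Mod k), ?_, Pool.Agent.H197Z.Rigid.not_projective,
    Pool.Agent.H197Z.Rigid.ext_one_zero⟩
  · exact Ideal.Quotient.nontrivial_iff.2 (Ring.jacobson_lt_top _).ne
  · intro x hx
    obtain ⟨y, rfl⟩ := Ideal.Quotient.mk_surjective x
    have hy : y 0 ≠ 0 := fun h =>
      hx (Ideal.Quotient.eq_zero_iff_mem.2 (Pool.Agent.H197Z.Rigid.mem_jac y h))
    exact (Pool.Agent.H197Z.Rigid.isUnit_of y hy).map _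
  · have : Module.Finite (Pool.Agent.H197Z.Rigid.Alg k)ᵐᵒᵖ (Pool.Agent.H197Z.Rigid.Alg k) :=
      Module.Finite.equiv (MulOpposite.opLinearEquiv (Pool.Agent.H197Z.Rigid.Alg k)ᵐᵒᵖ
        (M := Pool.Agent.H197Z.Rigid.Alg k)).symm
    exact Module.Finite.quotient _ _

end Pool.Agent.Results.MP_92f261_al.ARigidLocalSymmetric
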